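import Mathlib

/-! MP_d71e86_ag, F1: the ideal `(v, F)` is prime. -/

open MvPolynomial

universe u

namespace Helper50.D71

section
variable (k : Type u) [Field k]

/-- `S² - (Y³ - 1)` over `k[Y]` -/
noncomputable def quadE : Polynomial (Polynomial k) :=
  Polynomial.X ^ 2 - Polynomial.C (Polynomial.X ^ 3 - 1)

lemma quadE_irreducible : Irreducible (quadE k) := by
  have hm : (quadE k).Monic := by
    unfold quadE
    exact Polynomial.monic_X_pow_sub_C _ (by norm_num)
  have hd : (quadE k).natDegree = 2 := by
    unfold quadE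
    exact Polynomial.natDegree_X_pow_sub_C
  rw [Polynomial.Monic.irreducible_iff_roots_eq_zero_of_degree_le_three hm (by omega) (by omega)]
  rw [Multiset.eq_zero_iff_forall_notMem]
  intro r hr
  rw [Polynomial.mem_roots hm.ne_zero] at hr
  unfold quadE at hr
  simp only [Polynomial.IsRoot.def, Polynomial.eval_sub, Polynomial.eval_pow, Polynomial.eval_X,
    Polynomial.eval_C] at hr
  have h1 : r ^ 2 = Polynomial.X ^ 3 - Polynomial.C 1 := by
    rw [map_one]
    exact sub_eq_zero.mp hr
  have h2 := congrArg Polynomial.natDegree h1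
  rw [Polynomial.natDegree_pow, Polynomial.natDegree_X_pow_sub_C] at h2
  omega

variable {k} in
lemma quadE_eval₂ {R : Type*} [CommRing R] (i : Polynomial k →+* R) (r : R) :
    (quadE k).eval₂ i r = r ^ 2 - (i Polynomial.X ^ 3 - 1) := by
  unfold quadE
  rw [Polynomial.eval₂_sub, Polynomial.eval₂_pow, Polynomial.eval₂_X, Polynomial.eval₂_C,
    map_sub, map_pow, map_one]

/-- the evaluation at `(s, y, 0)` -/
noncomputable def toE : MvPolynomial (Fin 3) k →+* AdjoinRoot (quadE k) :=
  eval₂Hom ((AdjoinRoot.of (quadE k)).comp Polynomial.C)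
    ![AdjoinRoot.root (quadE k), AdjoinRoot.of (quadE k) Polynomial.X, 0]

theorem pE_isPrime :
    (Ideal.span {X 2, X 1 ^ 3 - 1 - X 0 ^ 2} : Ideal (MvPolynomial (Fin 3) k)).IsPrime := by
  have hirr := quadE_irreducible k
  have hdom : IsDomain (AdjoinRoot (quadE k)) := AdjoinRoot.isDomain_of_prime hirr.prime
  set I : Ideal (MvPolynomial (Fin 3) k) := Ideal.span {X 2, X 1 ^ 3 - 1 - X 0 ^ 2} with hI
  have hker : I = RingHom.ker (toE k) := by
    apply le_antisymm
    · rw [hI, Ideal.span_le]
      rintro x (rfl | rfl)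
      · simp [toE, RingHom.mem_ker]
      · have h1 := AdjoinRoot.eval₂_root (quadE k)
        rw [quadE_eval₂] at h1
        simp only [toE, SetLike.mem_coe, RingHom.mem_ker, map_sub, map_pow, map_one]
        simp only [eval₂Hom_X', Matrix.cons_val_one, Matrix.cons_val_zero]
        linear_combination -h1
    · intro x hx
      set i : Polynomial k →+* (MvPolynomial (Fin 3) k ⧸ I) :=
        Polynomial.eval₂RingHom ((Ideal.Quotient.mk I).comp C) (Ideal.Quotient.mk I (X 1)) with hi
      have hrel : (quadE k).eval₂ i (Ideal.Quotient.mk I (X 0)) = 0 := by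
        rw [quadE_eval₂, hi]
        simp only [Polynomial.coe_eval₂RingHom, Polynomial.eval₂_X]
        rw [← map_one (Ideal.Quotient.mk I), ← map_pow, ← map_pow, ← map_sub, ← map_sub,
          Ideal.Quotient.eq_zero_iff_mem]
        have h2 : (X 0 ^ 2 - (X 1 ^ 3 - 1) : MvPolynomial (Fin 3) k) =
            -(X 1 ^ 3 - 1 - X 0 ^ 2) := by ring
        rw [h2]
        exact I.neg_mem (Ideal.subset_span (by simp))
      have hcomp : (AdjoinRoot.lift i (Ideal.Quotient.mk I (X 0)) hrel).comp (toE k) =
          Ideal.Quotient.mk I := by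
        apply MvPolynomial.ringHom_ext
        · intro r
          simp [toE, hi]
        · intro j
          fin_cases j
          · simp [toE]
          · simp [toE, hi]
          · have : Ideal.Quotient.mk I (X 2) = 0 :=
              Ideal.Quotient.eq_zero_iff_mem.mpr (Ideal.subset_span (by simp))
            simp [toE, this]
      rw [← Ideal.Quotient.eq_zero_iff_mem, ← hcomp, RingHom.comp_apply,
        (RingHom.mem_ker.mp hx), map_zero]
  rw [hker]
  exact RingHom.ker_isPrime _

end

end Helper50.D71
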