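import Pool.Agent.Helper50.D71.NZ

/-!
# Fraction fields and dimensions of the ten charts
-/

open MvPolynomial

universe u

namespace Helper50.D71

section Frac

variable (k : Type u) [Field k]

lemma adjoin_syv_top : IntermediateField.adjoin k ({s k, y k, v k} : Set (KK k)) = ⊤ := by
  rw [eq_top_iff]
  rintro x -
  have hp : ∀ p : MvPolynomial (Fin 3) k, algebraMap (MvPolynomial (Fin 3) k) (KK k) p ∈
      IntermediateField.adjoin k ({s k, y k, v k} : Set (KK k)) := by
    intro p
    rw [← aeval_syv]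
    have h1 : aeval ![s k, y k, v k] p ∈ Algebra.adjoin k (Set.range ![s k, y k, v k]) := by
      rw [Algebra.adjoin_range_eq_range_aeval]
      exact ⟨p, rfl⟩
    have h2 : Set.range ![s k, y k, v k] = ({s k, y k, v k} : Set (KK k)) := by
      ext z
      simp
      tauto
    rw [h2] at h1
    exact IntermediateField.algebra_adjoin_le_adjoin _ _ h1
  obtain ⟨p, q, -, rfl⟩ := IsFractionRing.div_surjective (A := MvPolynomial (Fin 3) k) x
  exact div_mem (hp p) (hp q)

variable {k}

/-- an intermediate field containing `s, y` and `z₀` contains `v` -/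
lemma v_mem_of_z0 {L : IntermediateField k (KK k)} (hs : s k ∈ L) (hy : y k ∈ L)
    (hz : z0 k ∈ L) : v k ∈ L := by
  have hd := dd_ne k
  have h : v k = (z0 k - s k * (y k ^ 3 - 1 - s k ^ 2)) / (s k ^ 3 - y k) := by
    unfold dd at hd
    rw [eq_div_iff hd]
    simp only [z0, z1, F, fb]
    ring
  rw [h]
  exact div_mem (sub_mem hz (mul_mem hs (sub_mem (sub_mem (pow_mem hy 3) (one_mem _))
    (pow_mem hs 2)))) (sub_mem (pow_mem hs 3) hy)

/-- an intermediate field containing `s, y` and `z₁ / z₀` contains `v` -/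
lemma v_mem_of_t {L : IntermediateField k (KK k)} (hs : s k ∈ L) (hy : y k ∈ L)
    (ht : z1 k / z0 k ∈ L) : v k ∈ L := by
  have hz := z0_ne k
  have hF := F_ne k
  have hy0 := y_ne k
  have h1 : (z1 k / z0 k * (s k ^ 3 - y k) + s k ^ 2) * z0 k = F k * y k := by
    rw [add_mul, mul_assoc, mul_comm (s k ^ 3 - y k), ← mul_assoc, div_mul_cancel₀ _ hz]
    simp only [z0, z1, F, fb]
    ring
  have h2 : z1 k / z0 k * (s k ^ 3 - y k) + s k ^ 2 ≠ 0 := by
    intro h0
    rw [h0, zero_mul] at h1
    exact (mul_ne_zero hF hy0) h1.symm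
  have h : v k = -((y k ^ 3 - 1 - s k ^ 2) * (1 + z1 k / z0 k * s k)) /
      (z1 k / z0 k * (s k ^ 3 - y k) + s k ^ 2) := by
    rw [eq_div_iff h2]
    apply mul_right_cancel₀ hz
    rw [mul_assoc, h1]
    have h3 : (1 + z1 k / z0 k * s k) * z0 k = z0 k + z1 k * s k := by
      field_simp
    rw [neg_mul, mul_assoc, h3]
    simp only [z0, z1, F, fb]
    ring
  have hf : y k ^ 3 - 1 - s k ^ 2 ∈ L :=
    sub_mem (sub_mem (pow_mem hy 3) (one_mem _)) (pow_mem hs 2)
  rw [h]
  exact div_mem (neg_mem (mul_mem hf (add_mem (one_mem _) (mul_mem ht hs))))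
    (add_mem (mul_mem ht (sub_mem (pow_mem hs 3) hy)) (pow_mem hs 2))

/-- an intermediate field containing `y`, `q` and `p` contains `s` and `v` -/
lemma sv_mem_of_pq {L : IntermediateField k (KK k)} (hy : y k ∈ L)
    (hq : s k / fb k ∈ L) (hp : P0 k / (fb k * z1 k) ∈ L) : s k ∈ L ∧ v k ∈ L := by
  have hf0 := fb_ne k
  have hF0 := F_ne k
  have hz := z1_ne k
  have hf : fb k ∈ L := sub_mem (pow_mem hy 3) (one_mem _)
  have hs : s k ∈ L := by
    have : s k = s k / fb k * fb k := by field_simp
    rw [this]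
    exact mul_mem hq hf
  refine ⟨hs, ?_⟩
  have hF : F k ∈ L := sub_mem hf (pow_mem hs 2)
  set D : KK k := 1 + y k ^ 2 * (s k ^ 3 - y k) + P0 k / (fb k * z1 k) * fb k * s k ^ 2 with hD
  have h1 : D * z1 k = F k * fb k := by
    have : P0 k / (fb k * z1 k) * fb k * s k ^ 2 * z1 k = P0 k * s k ^ 2 := by field_simp
    rw [hD, add_mul, this]
    simp only [P0, z0, z1, F, fb]
    ring
  have h2 : D ≠ 0 := by
    intro h0
    rw [h0, zero_mul] at h1
    exact (mul_ne_zero hF0 hf0) h1.symm
  have h : v k = -(F k * (P0 k / (fb k * z1 k) * fb k + y k ^ 2 * s k)) / D := by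
    rw [eq_div_iff h2]
    apply mul_right_cancel₀ hz
    rw [mul_assoc, h1]
    have h3 : (P0 k / (fb k * z1 k) * fb k + y k ^ 2 * s k) * z1 k =
        P0 k + y k ^ 2 * s k * z1 k := by
      field_simp
    rw [neg_mul, mul_assoc, h3]
    simp only [P0, z0, z1, F, fb]
    ring
  rw [h]
  refine div_mem (neg_mem (mul_mem hF (add_mem (mul_mem hp hf) (mul_mem (pow_mem hy 2) hs)))) ?_
  rw [hD]
  exact add_mem (add_mem (one_mem _) (mul_mem (pow_mem hy 2) (sub_mem (pow_mem hs 3) hy)))
    (mul_mem (mul_mem hp hf) (pow_mem hs 2))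

lemma syv_mem (c : Ch) : s k ∈ IntermediateField.adjoin k (gens k c) ∧
    y k ∈ IntermediateField.adjoin k (gens k c) ∧ v k ∈ IntermediateField.adjoin k (gens k c) := by
  have hg : ∀ x ∈ gens k c, x ∈ IntermediateField.adjoin k (gens k c) :=
    fun x hx => IntermediateField.subset_adjoin _ _ hx
  generalize IntermediateField.adjoin k (gens k c) = L at hg ⊢
  have hs0 := s_ne k
  have hy0 := y_ne k
  have hv0 := v_ne k
  have hf0 := fb_ne k
  have hz0 := z0_ne k
  have hz1 := z1_ne k
  have hP0 := P0_ne k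
  cases c
  case S =>
    simp only [gens, Set.mem_insert_iff, Set.mem_singleton_iff, forall_eq_or_imp, forall_eq] at hg
    obtain ⟨h1, h2, h3, h4⟩ := hg
    refine ⟨h2, h1, ?_⟩
    have : v k = v k / s k * s k := by field_simp
    rw [this]; exact mul_mem h4 h2
  case V =>
    simp only [gens, Set.mem_insert_iff, Set.mem_singleton_iff, forall_eq_or_imp, forall_eq] at hg
    obtain ⟨h1, h2, h3, h4⟩ := hg
    refine ⟨?_, h1, h2⟩
    have : s k = s k / v k * v k := by field_simp
    rw [this]; exact mul_mem h3 h2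
  case W =>
    simp only [gens, Set.mem_insert_iff, Set.mem_singleton_iff, forall_eq_or_imp, forall_eq] at hg
    obtain ⟨h1, h2, h3⟩ := hg
    refine ⟨h1, h2, ?_⟩
    have : v k = (1 / v k)⁻¹ := by field_simp
    rw [this]; exact inv_mem h3
  case Pa =>
    simp only [gens, Set.mem_insert_iff, Set.mem_singleton_iff, forall_eq_or_imp, forall_eq] at hg
    obtain ⟨h1, h2, h3, h4⟩ := hg
    have hs : s k ∈ L := by
      have : s k = (1 / s k)⁻¹ := by field_simp
      rw [this]; exact inv_mem h1
    have hy : y k ∈ L := by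
      have : y k = y k / s k * s k := by field_simp
      rw [this]; exact mul_mem h2 hs
    have hz : z0 k ∈ L := by
      have : z0 k = z0 k / s k * s k := by field_simp
      rw [this]; exact mul_mem h3 hs
    exact ⟨hs, hy, v_mem_of_z0 hs hy hz⟩
  case Pb =>
    simp only [gens, Set.mem_insert_iff, Set.mem_singleton_iff, forall_eq_or_imp, forall_eq] at hg
    obtain ⟨h1, h2, h3, h4⟩ := hg
    have hs : s k ∈ L := by
      have : s k = (1 / s k)⁻¹ := by field_simp
      rw [this]; exact inv_mem h1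
    have hy : y k ∈ L := by
      have : y k = y k / s k * s k := by field_simp
      rw [this]; exact mul_mem h2 hs
    have hz : z0 k ∈ L := by
      have : z0 k = s k / (s k / z0 k) := by field_simp
      rw [this]; exact div_mem hs h3
    exact ⟨hs, hy, v_mem_of_z0 hs hy hz⟩
  case Q =>
    simp only [gens, Set.mem_insert_iff, Set.mem_singleton_iff, forall_eq_or_imp, forall_eq] at hg
    obtain ⟨h1, h2, h3, h4⟩ := hg
    have hy : y k ∈ L := by
      have : y k = (1 / y k)⁻¹ := by field_simp
      rw [this]; exact inv_mem h1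
    have hs : s k ∈ L := by
      have : s k = s k / y k * y k := by field_simp
      rw [this]; exact mul_mem h2 hy
    exact ⟨hs, hy, v_mem_of_t hs hy h3⟩
  case A =>
    simp only [gens, Set.mem_insert_iff, Set.mem_singleton_iff, forall_eq_or_imp, forall_eq] at hg
    obtain ⟨h1, h2, h3, h4⟩ := hg
    have hy : y k ∈ L := by
      have : y k = (y k * P0 k / (fb k * z1 k)) / (P0 k / (fb k * z1 k)) := by field_simp
      rw [this]; exact div_mem h1 h2
    have hq : s k / fb k ∈ L := by
      have : s k / fb k = s k * fb k * z1 k ^ 2 / P0 k ^ 2 * (P0 k / (fb k * z1 k)) ^ 2 := by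
        field_simp
      rw [this]; exact mul_mem h3 (pow_mem h2 2)
    obtain ⟨hs, hv⟩ := sv_mem_of_pq hy hq h2
    exact ⟨hs, hy, hv⟩
  case B =>
    simp only [gens, Set.mem_insert_iff, Set.mem_singleton_iff, forall_eq_or_imp, forall_eq] at hg
    obtain ⟨h1, h2, h3, h4⟩ := hg
    have hy : y k ∈ L := by
      have : y k = (y k * s k * z1 k / P0 k) / (s k * z1 k / P0 k) := by field_simp
      rw [this]; exact div_mem h1 h2
    have hp : P0 k / (fb k * z1 k) ∈ L := by
      have : P0 k / (fb k * z1 k) = s k * z1 k / P0 k * (P0 k ^ 2 / (s k * fb k * z1 k ^ 2)) := by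
        field_simp
      rw [this]; exact mul_mem h2 h3
    have hq : s k / fb k ∈ L := by
      have : s k / fb k = s k * z1 k / P0 k * (P0 k / (fb k * z1 k)) := by
        field_simp
      rw [this]; exact mul_mem h2 hp
    obtain ⟨hs, hv⟩ := sv_mem_of_pq hy hq hp
    exact ⟨hs, hy, hv⟩
  case C =>
    simp only [gens, Set.mem_insert_iff, Set.mem_singleton_iff, forall_eq_or_imp, forall_eq] at hg
    obtain ⟨hy, h2, hq, h4⟩ := hg
    have hp : P0 k / (fb k * z1 k) ∈ L := by
      have : P0 k / (fb k * z1 k) = P0 k / (s k * z1 k) * (s k / fb k) := by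
        field_simp
      rw [this]; exact mul_mem h2 hq
    obtain ⟨hs, hv⟩ := sv_mem_of_pq hy hq hp
    exact ⟨hs, hy, hv⟩
  case D =>
    simp only [gens, Set.mem_insert_iff, Set.mem_singleton_iff, forall_eq_or_imp, forall_eq] at hg
    obtain ⟨h1, h2, h3, h4⟩ := hg
    have hy : y k ∈ L := by
      have : y k = (1 / y k)⁻¹ := by field_simp
      rw [this]; exact inv_mem h1
    have hq : s k / fb k ∈ L := by
      have : s k / fb k = y k ^ 2 * s k / fb k / y k ^ 2 := by
        field_simp
      rw [this]; exact div_mem h3 (pow_mem hy 2)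
    have hp : P0 k / (fb k * z1 k) ∈ L := by
      have : P0 k / (fb k * z1 k) = P0 k / (y k * s k * z1 k) * (y k * (s k / fb k)) := by
        field_simp
      rw [this]; exact mul_mem h2 (mul_mem hy hq)
    obtain ⟨hs, hv⟩ := sv_mem_of_pq hy hq hp
    exact ⟨hs, hy, hv⟩

variable (k)

theorem chart_isFractionRing (c : Ch) : IsFractionRing (chart k c) (KK k) := by
  have htop : IntermediateField.adjoin k (gens k c) = ⊤ := by
    rw [eq_top_iff, ← adjoin_syv_top, IntermediateField.adjoin_le_iff]
    obtain ⟨h1, h2, h3⟩ := syv_mem (k := k) c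
    rintro x (rfl | rfl | rfl)
    · exact h1
    · exact h2
    · exact h3
  refine IsFractionRing.of_field _ _ fun z => ?_
  have hz : z ∈ IntermediateField.adjoin k (gens k c) := htop ▸ IntermediateField.mem_top
  obtain ⟨x, hx, y, hy, h⟩ := IntermediateField.mem_adjoin_iff_div.mp hz
  exact ⟨⟨x, hx⟩, ⟨y, hy⟩, h⟩

end Frac

section Dim

open Cardinal

variable (k : Type u) [Field k]

theorem trdeg_KK : Algebra.trdeg k (KK k) = 3 := by
  have : Algebra.IsAlgebraic (MvPolynomial (Fin 3) k) (KK k) :=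
    IsLocalization.isAlgebraic _ (nonZeroDivisors (MvPolynomial (Fin 3) k))
  have h := (IsTranscendenceBasis.mvPolynomial (Fin 3) k).algebraMap_comp (A := KK k)
  have h2 := h.lift_cardinalMk_eq_trdeg
  simpa using h2.symm

variable {k} in
theorem dim_le_of (g : Fin 4 → KK k) :
    ringKrullDim (Algebra.adjoin k (Set.range g)) ≤ 3 := by
  have hni : ¬ AlgebraicIndependent k g := by
    intro h
    have h1 := h.lift_cardinalMk_le_trdeg
    rw [trdeg_KK, Cardinal.mk_fin] at h1
    have h2 : ((4 : ℕ) : Cardinal.{u}) ≤ ((3 : ℕ) : Cardinal.{u}) := by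
      simpa using h1
    rw [Nat.cast_le] at h2
    omega
  have hex : ∃ p : MvPolynomial (Fin 4) k, aeval g p = 0 ∧ p ≠ 0 := by
    by_contra hc
    push Not at hc
    exact hni (algebraicIndependent_iff.mpr fun p hp => hc p hp)
  obtain ⟨p, hp, hp0⟩ := hex
  have hrange : Algebra.adjoin k (Set.range g) =
      (aeval g : MvPolynomial (Fin 4) k →ₐ[k] KK k).range :=
    Algebra.adjoin_range_eq_range_aeval k g
  rw [hrange]
  set f := (aeval g : MvPolynomial (Fin 4) k →ₐ[k] KK k)
  have h1 := ringKrullDim_succ_le_of_surjective (f.rangeRestrict : MvPolynomial (Fin 4) k →+* f.range)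
    f.rangeRestrict_surjective (mem_nonZeroDivisors_iff_ne_zero.mpr hp0) (Subtype.ext hp)
  rw [MvPolynomial.ringKrullDim_of_isNoetherianRing, ringKrullDim_eq_zero_of_field] at h1
  simp only [Nat.card_eq_fintype_card, Fintype.card_fin, zero_add] at h1
  have h2 : ((4 : ℕ) : WithBot ℕ∞) = 3 + 1 := by norm_num
  rw [h2] at h1
  exact ENat.WithBot.add_le_add_one_right_iff.mp h1

lemma range4 {α : Type*} (a b c d : α) : Set.range ![a, b, c, d] = {a, b, c, d} := by
  ext z
  simp
  tauto

lemma range3 {α : Type*} (a b c : α) : Set.range ![a, b, c] = {a, b, c} := by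
  ext z
  simp
  tauto

theorem chart_dim_le (c : Ch) : ringKrullDim (chart k c) ≤ 3 := by
  have key : ∃ g : Fin 4 → KK k, Set.range g = gens k c := by
    cases c
    case W =>
      refine ⟨![s k, y k, 1 / v k, 1 / v k], ?_⟩
      rw [range4]
      simp [gens]
    all_goals exact ⟨![_, _, _, _], range4 _ _ _ _⟩
  obtain ⟨g, hg⟩ := key
  unfold chart
  rw [← hg]
  exact dim_le_of g

theorem three_le_chart_dim : (3 : WithBot ℕ∞) ≤ ringKrullDim (chart k .W) := by
  have hr : Set.range ![s k, y k, 1 / v k] = gens k .W := range3 _ _ _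
  have hW : chart k .W = Algebra.adjoin k (Set.range ![s k, y k, 1 / v k]) := by
    rw [hr]
    rfl
  have hfr := chart_isFractionRing k .W
  rw [hW] at hfr ⊢
  have : Algebra.IsAlgebraic (Algebra.adjoin k (Set.range ![s k, y k, 1 / v k])) (KK k) :=
    IsLocalization.isAlgebraic _
      (nonZeroDivisors (Algebra.adjoin k (Set.range ![s k, y k, 1 / v k])))
  have hb : IsTranscendenceBasis k ![s k, y k, 1 / v k] := by
    apply Algebra.IsAlgebraic.isTranscendenceBasis_of_lift_le_trdeg_of_finite
    rw [trdeg_KK]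
    simp
  rw [← ringKrullDim_eq_of_ringEquiv hb.1.aevalEquiv.toRingEquiv,
    MvPolynomial.ringKrullDim_of_isNoetherianRing, ringKrullDim_eq_zero_of_field]
  simp

end Dim

end Helper50.D71
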